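import Mathlib
import Pool.Agent.H570.CD.Full

/-!
# Simultaneous primes in `k` progressions with the same difference, from the critical length on
-/

set_option autoImplicit false

namespace Pool.Agent.Results.MP_746f10_nt.CommonDifference

open Finset Filter Topology

/-- A system of `k` linear forms `a_i + d n` with a common difference `d`, given by `v = (d, a)`.
`Primes v n`: all `k` values at `n` are primes. -/
def Primes {k : ℕ} (v : ℕ × (Fin k → ℕ)) (n : ℕ) : Prop := ∀ i, (v.2 i + v.1 * n).Prime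

open Classical in
/-- `count v K`: the number of integers `1 ≤ n ≤ K` at which all `k` values are primes. -/
noncomputable def count {k : ℕ} (v : ℕ × (Fin k → ℕ)) (K : ℕ) : ℕ := ((Icc 1 K).filter (Primes v)).card

/-- the number of residues `n` modulo `p` at which some value is divisible by `p` -/
def nu {k : ℕ} (v : ℕ × (Fin k → ℕ)) (p : ℕ) : ℕ :=
  ((range p).filter (fun n => ∃ i, p ∣ v.2 i + v.1 * n)).card

/-- the partial products of the Hardy–Littlewood singular series of the system -/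
noncomputable def partialSeries {k : ℕ} (v : ℕ × (Fin k → ℕ)) (z : ℕ) : ℝ :=
  ∏ p ∈ (Icc 1 z).filter Nat.Prime, (1 - (nu v p : ℝ) / p) / (1 - 1 / (p : ℝ)) ^ k

/-- all systems with `t < d ≤ t + H` and `s i < a_i ≤ s i + H` -/
def Box {k : ℕ} (t : ℕ) (s : Fin k → ℕ) (H : ℕ) : Finset (ℕ × (Fin k → ℕ)) :=
  Ioc t (t + H) ×ˢ Fintype.piFinset (fun i => Ioc (s i) (s i + H))

/-- The singular series of the system converges, to `S` say, and for ALL lengths `K` with `lo ≤ K ≤ hi`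
the number of `n ≤ K` with prime values is `(1 + O(ε)) S K / (log H) ^ k`. -/
def Formula {k : ℕ} (ε lo hi : ℝ) (H : ℕ) (v : ℕ × (Fin k → ℕ)) : Prop :=
  ∃ S : ℝ, Tendsto (partialSeries v) atTop (𝓝 S) ∧ ∀ K : ℕ, lo ≤ K → (K : ℝ) ≤ hi →
    |(count v K : ℝ) - S * K / Real.log H ^ k| ≤ ε * (S * K / Real.log H ^ k)

/-- the system without the corner of the box -/
def red {k : ℕ} (s : Fin k → ℕ) (v : ℕ × (Fin k → ℕ)) : ℕ × (Fin k → ℕ) := (v.1, fun i => v.2 i - s i)

lemma red_mem {k : ℕ} (t : ℕ) (s : Fin k → ℕ) (H : ℕ) (v : ℕ × (Fin k → ℕ)) (hv : v ∈ Box t s H) :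
    red s v ∈ Pool.Agent.H570.CD.Om k t H ∧ ∀ i, (red s v).2 i + s i = v.2 i := by
  unfold Box at hv
  obtain ⟨h1, h2⟩ := Finset.mem_product.1 hv
  have h3 : ∀ i, s i < v.2 i ∧ v.2 i ≤ s i + H := fun i => mem_Ioc.1 (Fintype.mem_piFinset.1 h2 i)
  refine ⟨?_, fun i => ?_⟩
  · unfold Pool.Agent.H570.CD.Om Pool.Agent.H570.CD.XB
    refine Finset.mem_product.2 ⟨h1, Fintype.mem_piFinset.2 fun i => ?_⟩
    show v.2 i - s i ∈ Ioc 0 H
    have := h3 i
    exact mem_Ioc.2 ⟨by omega, by omega⟩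
  · show v.2 i - s i + s i = v.2 i
    have := h3 i
    omega

lemma red_inj {k : ℕ} (t : ℕ) (s : Fin k → ℕ) (H : ℕ) (v v' : ℕ × (Fin k → ℕ)) (hv : v ∈ Box t s H) (hv' : v' ∈ Box t s H)
    (h : red s v = red s v') : v = v' := by
  have h1 := (red_mem t s H v hv).2
  have h2 := (red_mem t s H v' hv').2
  refine Prod.ext ?_ (funext fun i => ?_)
  · have h5 : (red s v).1 = (red s v').1 := by rw [h]
    exact h5
  · rw [← h1 i, ← h2 i, h]

/-- all signs are positive -/
def pos (k : ℕ) : Fin k → Bool := fun _ => true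

lemma value_eq {k : ℕ} (t : ℕ) (s : Fin k → ℕ) (H : ℕ) (v : ℕ × (Fin k → ℕ)) (hv : v ∈ Box t s H) (i : Fin k) (n : ℕ) :
    (red s v).2 i + Pool.Agent.H570.CD.wS s (pos k) i (red s v).1 n = v.2 i + v.1 * n := by
  have h1 := (red_mem t s H v hv).2 i
  unfold Pool.Agent.H570.CD.wS pos
  simp only [if_true]
  have h2 : (red s v).1 = v.1 := rfl
  rw [h2]
  omega

lemma form_eq {k : ℕ} (t : ℕ) (s : Fin k → ℕ) (H : ℕ) (v : ℕ × (Fin k → ℕ)) (hv : v ∈ Box t s H) (i : Fin k) :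
    Pool.Agent.H570.CD.lS s (pos k) (red s v) i = ((v.2 i : ℤ), (v.1 : ℤ)) := by
  have h1 := (red_mem t s H v hv).2 i
  unfold Pool.Agent.H570.CD.lS pos
  simp only [if_true]
  refine Prod.ext ?_ rfl
  show (((red s v).2 i : ℤ) + s i) = v.2 i
  exact_mod_cast h1

lemma nu_eq {k : ℕ} (t : ℕ) (s : Fin k → ℕ) (H : ℕ) (v : ℕ × (Fin k → ℕ)) (hv : v ∈ Box t s H) (p : ℕ) :
    Pool.Agent.H570.CD.nuZ (Pool.Agent.H570.CD.lS s (pos k) (red s v)) p = nu v p := by
  unfold Pool.Agent.H570.CD.nuZ nu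
  congr 1
  refine Finset.filter_congr fun n _ => exists_congr fun i => ?_
  rw [form_eq t s H v hv i]
  have h1 : ((v.2 i : ℤ) + (n : ℤ) * (v.1 : ℤ)) = ((v.2 i + v.1 * n : ℕ) : ℤ) := by push_cast; ring
  show (p : ℤ) ∣ ((v.2 i : ℤ) + (n : ℤ) * (v.1 : ℤ)) ↔ _
  rw [h1]
  exact Int.natCast_dvd_natCast

lemma series_eq {k : ℕ} (t : ℕ) (s : Fin k → ℕ) (H : ℕ) (v : ℕ × (Fin k → ℕ)) (hv : v ∈ Box t s H) :
    Pool.Agent.H570.CD.SPZ (Pool.Agent.H570.CD.lS s (pos k) (red s v)) = partialSeries v := by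
  funext z
  unfold Pool.Agent.H570.CD.SPZ partialSeries Pool.Agent.H570.CD.sfZ
  refine Finset.prod_congr rfl fun p _ => ?_
  rw [nu_eq t s H v hv p]

lemma primes_iff {k : ℕ} (t : ℕ) (s : Fin k → ℕ) (H : ℕ) (v : ℕ × (Fin k → ℕ)) (hv : v ∈ Box t s H) (n : ℕ) :
    Pool.Agent.H570.CD.AllP (Pool.Agent.H570.CD.wS s (pos k)) (red s v) n ↔ Primes v n := by
  unfold Pool.Agent.H570.CD.AllP Primes
  refine forall_congr' fun i => ?_
  rw [value_eq t s H v hv i n]

lemma count_eq {k : ℕ} (t : ℕ) (s : Fin k → ℕ) (H : ℕ) (v : ℕ × (Fin k → ℕ)) (hv : v ∈ Box t s H) (K : ℕ) :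
    Pool.Agent.H570.CD.PiW (Pool.Agent.H570.CD.wS s (pos k)) (red s v) K = count v K := by
  classical
  unfold Pool.Agent.H570.CD.PiW count
  congr 1
  exact Finset.filter_congr fun n _ => primes_iff t s H v hv n

open Classical in
/-- For every `k ≥ 1` and `ε > 0` there are constants `0 < c < C` such that for all `A` and all large `H`, in every box of
side `H` with corner of height at most `H (log H) ^ A`: for all but at most `ε H ^ (k + 1)` of the systems
`a_1 + d n, …, a_k + d n` the Hardy–Littlewood formula holds, with relative error `ε`, simultaneously for all lengths from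
`C (log H) ^ k` to `(log H) ^ A`; and for all but at most `ε H ^ (k + 1)` systems there is no `n` at all up to
`c (log H) ^ k`. -/
theorem result (k : ℕ) (hk : 1 ≤ k) (ε : ℝ) (hε : 0 < ε) : ∃ c C : ℝ, 0 < c ∧ c < C ∧ ∀ A : ℕ, ∀ᶠ H : ℕ in atTop,
    ∀ (t : ℕ) (s : Fin k → ℕ), (t : ℝ) ≤ H * Real.log H ^ A → (∀ i, (s i : ℝ) ≤ H * Real.log H ^ A) →
    (((Box t s H).filter (fun v => ¬ Formula ε (C * Real.log H ^ k) (Real.log H ^ A) H v)).card : ℝ) ≤
      ε * (H : ℝ) ^ (k + 1) ∧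
    (((Box t s H).filter (fun v => ∃ n : ℕ, 1 ≤ n ∧ (n : ℝ) ≤ c * Real.log H ^ k ∧ Primes v n)).card : ℝ) ≤
      ε * (H : ℝ) ^ (k + 1) := by
  obtain ⟨C, hC0, hC⟩ := Pool.Agent.H570.CD.main_fullO k hk ε hε
  obtain ⟨D, hD1, hD⟩ := Pool.Agent.H570.CD.lowO
  have hc0 : 0 < min (ε / D ^ k) (C / 2) := by positivity
  refine ⟨min (ε / D ^ k) (C / 2), C, hc0, lt_of_le_of_lt (min_le_right _ _) (by linarith), fun A => ?_⟩
  filter_upwards [hC A (A + (A + 2 * k + 2)) le_rfl, Pool.Agent.H570.LQ.ev1 1, eventually_ge_atTop 3] with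
    H hH hx1 hH3 t s ht hs
  have hHr : (3 : ℝ) ≤ H := by exact_mod_cast hH3
  have hlog : 0 < Real.log H := Real.log_pos (by linarith)
  constructor
  · set F := (Box t s H).filter (fun v => ¬ Formula ε (C * Real.log H ^ k) (Real.log H ^ A) H v) with hF
    have h1 := hH t s (pos k) ht (fun i => (hs i).trans (mul_le_mul_of_nonneg_left
      (pow_le_pow_right₀ hx1 (by omega)) (by linarith))) (fun i hi => by unfold pos at hi; simp at hi) (F.image (red s)) ?_
    · rw [Finset.card_image_of_injOn] at h1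
      · exact h1
      · intro v hv v' hv' hvv
        exact red_inj t s H v v' (Finset.mem_filter.1 (Finset.mem_coe.1 hv)).1 (Finset.mem_filter.1 (Finset.mem_coe.1 hv')).1 hvv
    · intro v' hv'
      obtain ⟨v, hv, rfl⟩ := Finset.mem_image.1 hv'
      obtain ⟨h2, h3⟩ := Finset.mem_filter.1 hv
      refine ⟨(red_mem t s H v h2).1, fun h4 => h3 ?_⟩
      obtain ⟨S, hS, hS2⟩ := h4
      rw [series_eq t s H v h2] at hS
      refine ⟨S, hS, fun K h5 h6 => ?_⟩
      rw [← count_eq t s H v h2 K]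
      exact hS2 K h5 h6
  · set c : ℝ := min (ε / D ^ k) (C / 2) with hc
    set F := (Box t s H).filter (fun v => ∃ n : ℕ, 1 ≤ n ∧ (n : ℝ) ≤ c * Real.log H ^ k ∧ Primes v n) with hF
    have h1 := hD k (Pool.Agent.H570.CD.wS s (pos k)) t H ⌊c * Real.log H ^ k⌋₊ (by omega) (F.image (red s)) ?_
    · rw [Finset.card_image_of_injOn] at h1
      · refine h1.trans ?_
        have h1 : (⌊c * Real.log H ^ k⌋₊ : ℝ) ≤ c * Real.log H ^ k := Nat.floor_le (by positivity)
        have hD0 : 0 < D := by linarith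
        calc (⌊c * Real.log H ^ k⌋₊ : ℝ) * ((D / Real.log H) ^ k * (H : ℝ) ^ (k + 1)) ≤
              (ε / D ^ k * Real.log H ^ k) * ((D / Real.log H) ^ k * (H : ℝ) ^ (k + 1)) := by
              refine mul_le_mul_of_nonneg_right (h1.trans ?_) (by positivity)
              exact mul_le_mul_of_nonneg_right (min_le_left _ _) (by positivity)
          _ = ε * (H : ℝ) ^ (k + 1) := by
              rw [div_pow]; field_simp
      · intro v hv v' hv' hvv
        exact red_inj t s H v v' (Finset.mem_filter.1 (Finset.mem_coe.1 hv)).1 (Finset.mem_filter.1 (Finset.mem_coe.1 hv')).1 hvv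
    · intro v' hv'
      obtain ⟨v, hv, rfl⟩ := Finset.mem_image.1 hv'
      obtain ⟨h2, n, h3, h4, h5⟩ := Finset.mem_filter.1 hv
      exact ⟨(red_mem t s H v h2).1, n, h3, Nat.le_floor h4, (primes_iff t s H v h2 n).2 h5⟩

end Pool.Agent.Results.MP_746f10_nt.CommonDifference
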