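import Mathlib
import Pool.Agent.H536.OC.C21
import Pool.Agent.H536.OC.STup

/-!
# One prescribed form prime, another one `P₃`, all the others almost prime, for ALL admissible systems

For every `k` there are constants `A`, `R` and `γ` such that for EVERY admissible system of `k` forms `a_i x + b_i`, EVERY
two of its forms (indices `j` and `l`) and EVERY `X ≥ γ (a_1 ⋯ a_k) ^ A` there are at least `X ^ 0.97` numbers `n ≤ X` for
which `a_j n + b_j` is prime, `a_l n + b_l` has at most three prime factors and all the forms have at most `R` prime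
factors (with multiplicity). For `k = 1` this contains Linnik's theorem. There is no exceptional set of moduli.
-/

namespace Pool.Agent.Results.MP_746f10_nt.PrimeAndP3

/-- the admissible systems of the problem -/
def Admissible {k : ℕ} (a b : Fin k → ℕ) : Prop :=
  (∀ i, 1 ≤ b i ∧ b i < a i) ∧ ∀ p : ℕ, p.Prime → ∃ m : ℤ, ∀ i, ¬ ((p : ℤ) ∣ (a i : ℤ) * m + (b i : ℤ))

theorem result (k : ℕ) : ∃ A R γ : ℕ, 1 ≤ γ ∧ ∀ a b : Fin k → ℕ, Admissible a b → ∀ j l : Fin k,
    ∀ X : ℕ, γ * (∏ i, a i) ^ A ≤ X → ∃ S : Finset ℕ, (X : ℝ) ^ (97 / 100 : ℝ) ≤ S.card ∧ ∀ n ∈ S, n ≤ X ∧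
      (a j * n + b j).Prime ∧ ArithmeticFunction.cardFactors (a l * n + b l) ≤ 3 ∧
      ∀ i, ArithmeticFunction.cardFactors (a i * n + b i) ≤ R := by
  obtain ⟨A, R, γ, hγ, h⟩ := Pool.Agent.H536.OC.tup Pool.Agent.H536.OC.U3c k
  exact ⟨A, R, γ, hγ, fun a b hab j l => h a b hab.1 hab.2 j l⟩

end Pool.Agent.Results.MP_746f10_nt.PrimeAndP3
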