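import Pool.Agent.H579.R.TupGR
import Pool.Agent.H579.R.Reg

/-!
# Simultaneous primes in `k` linear forms with large slopes: `n` up to the power `1 / 4 + ρ` of the slopes

The uniform prime `k`-tuplets conjecture asks for an `n ≤ γ (a₁ ... a_k) ^ A` at which all the forms `a_i n + b_i` of an
admissible system are prime. We prove the lower bound of the right order for the number of such `n ≤ M` as soon as
`M ≥ (max a_i) ^ (1 / 4 + ρ)`, for almost all constant terms and for all slopes outside a thin set: for every `N` there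
is a set `D(N)` of at most `(log N) ^ c` integers, the RADICALS of which are larger than any given power of `log N`, such
that for all slopes `q₁, ..., q_k` with `q_i ^ (1 / 4 + ρ) ≤ M`, `q_i` not divisible by a member of `D(q_i M)` (in
particular for ALL slopes with a radical at most a power of `log M`, for instance `q_i = 2 ^ j`), all but at most
`∏ (q_i M) / (log M) ^ A` of the tuples `(b₁, ..., b_k)`, `1 ≤ b_i ≤ q_i M`, for which the forms `q_i m + b_i` are
pairwise not proportional, satisfy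

  `#{m ≤ M : q₁ m + b₁, ..., q_k m + b_k are primes} ≥ 8 ^ (-k) S(q, b) M / ∏ log (q_i M)`,

`S(q, b)` the singular series of the system. The slopes may be of different orders of magnitude. More generally `m` can
be restricted to an ARBITRARY set `S ⊆ [1, M]` (the prediction is then the one from the numbers of the `m ∈ S` with
values without prime factors up to a power of `log M`).

Proof. A minorant of the function of von Mangoldt is replaced by its sieve model; the square mean of the difference over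
ALL residue classes modulo `q`, twisted by an arbitrary additive character, is small for `q ≤ N ^ (4 / 5 - ρ)` which are
not divisible by one of few bad conductors (`G/PG`, `G/PF`; a conductor with a small radical is not bad by Postnikov's
formula and Vinogradov's method, `H567/PP`). The identity of Parseval with a function on the multiples
of `q` turns this into an estimate for the sums over an arbitrary set of `m` of the difference at `q m + b`, in square
mean over `b` (`L/MS`, `G/FormsF`). One form after another is treated in this way (`G/Multi`).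
-/

set_option autoImplicit false

namespace Pool.Agent.Results.MP_746f10_nt.SystemsWithLargeSlopes

/-- the radical of `d`: the product of the primes dividing `d` -/
def rad (d : ℕ) : ℕ := ∏ p ∈ d.primeFactors, p

/-- the product of `1 - 1 / p` over the primes `p ≤ z` -/
noncomputable def mertens (z : ℕ) : ℝ := ∏ p ∈ (Finset.Icc 1 z).filter Nat.Prime, (1 - 1 / (p : ℝ))

/-- the number of the `m ∈ S` for which all `q i * m + b i` are primes -/
noncomputable def primeValues {k : ℕ} (S : Set ℕ) (q : Fin k → ℕ) (b : Fin k → ℤ) : ℕ :=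
  Set.ncard {m : ℕ | m ∈ S ∧ ∀ i, ∃ p : ℕ, p.Prime ∧ (q i : ℤ) * m + b i = p}

/-- the number of the `m ∈ S` for which no `q i * m + b i` has a prime factor up to `z` -/
noncomputable def roughValues {k : ℕ} (z : ℕ) (S : Set ℕ) (q : Fin k → ℕ) (b : Fin k → ℤ) : ℕ :=
  Set.ncard {m : ℕ | m ∈ S ∧ ∀ i, ∀ p : ℕ, p.Prime → p ≤ z → ¬ (p : ℤ) ∣ (q i : ℤ) * m + b i}

/-- the number of the residue classes `m` modulo `p` for which one of the `q i * m + b i` is divisible by `p` -/
noncomputable def classes {k : ℕ} (q : Fin k → ℕ) (b : Fin k → ℤ) (p : ℕ) : ℕ :=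
  Set.ncard {m : ℕ | m < p ∧ ∃ i, (p : ℤ) ∣ (q i : ℤ) * m + b i}

/-- the singular series of the system of the forms `q i * m + b i` -/
noncomputable def singular {k : ℕ} (q : Fin k → ℕ) (b : Fin k → ℤ) : ℝ :=
  ∏' p : Nat.Primes, (1 - (classes q b p : ℝ) / (p : ℕ)) / (1 - 1 / ((p : ℕ) : ℝ)) ^ k

theorem singular_eq {k : ℕ} (q : Fin k → ℕ) (b : Fin k → ℤ) :
    Pool.Agent.H579.G.sing (fun i => (q i : ℤ)) b = singular q b := by
  classical
  unfold Pool.Agent.H579.G.sing singular
  congr 1
  funext p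
  unfold Pool.Agent.H579.G.fac
  have e : Pool.Agent.H373R2.T7.nuB (Pool.Agent.H579.G.Qf (fun i => (q i : ℤ)) b) p = classes q b p := by
    unfold Pool.Agent.H373R2.T7.nuB classes
    rw [← Set.ncard_coe_finset]
    congr 1
    ext m
    rw [Finset.mem_coe, Finset.mem_filter, Finset.mem_range, Set.mem_ofPred_eq]
    unfold Pool.Agent.H579.G.Qf
    rfl
  rw [e]

/-- **Simultaneous primes in `k` forms with large slopes.** For all `k ≥ 1`, `ρ > 0` and `A` there is `c` such that for
all `B` there is `E₀` such that for all `E ≥ E₀` there are `x₀` and sets `D(x)` of integers, for `x ≥ x₀` with at most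
`(log x) ^ c` elements, all of them with a radical larger than `(log x) ^ B`, such that for all `M ≥ x₀` and all slopes
`q_i ≥ 1` with `q_i ^ (1 / 4 + ρ) ≤ M` which have a radical `≤ (log (q_i M)) ^ B` or are not divisible by a member of
`D(q_i M)`, `i = 1, ..., k`:
(1) all but at most `(∏ q_i M) / (log M) ^ A` of the tuples `b` of integers `1 ≤ b_i ≤ q_i M` with pairwise not
proportional forms `q_i m + b_i` satisfy
`#{m ≤ M : all q_i m + b_i prime} ≥ (1 / 8) ^ k singular(q, b) M / ∏ log (q_i M)`;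
(2) for EVERY set `S` of positive integers up to `M`, all but at most `(∏ q_i M) / (log M) ^ A` of the tuples `b` of
integers `1 ≤ b_i ≤ q_i M` satisfy, with `z = ⌈(log M) ^ E⌉`,
`primeValues S q b ≥ (1 / 8) ^ k (roughValues z S q b / ∏ (mertens z log (q_i M))) - M / (log M) ^ A`. -/
theorem result (k : ℕ) (hk : 1 ≤ k) (ρ : ℝ) (hρ : 0 < ρ) (A : ℕ) :
    ∃ c : ℕ, ∀ B : ℕ, ∃ E₀ : ℕ, ∀ E : ℕ, E₀ ≤ E → ∃ x₀ : ℕ, ∃ D : ℕ → Finset ℕ,
      (∀ x : ℕ, x₀ ≤ x → ((D x).card : ℝ) ≤ Real.log x ^ c ∧ ∀ d ∈ D x, Real.log x ^ B < (rad d : ℝ)) ∧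
      ∀ M : ℕ, x₀ ≤ M → ∀ q : Fin k → ℕ,
        (∀ i, 1 ≤ q i ∧ (q i : ℝ) ^ (1 / 4 + ρ) ≤ M ∧
          ((rad (q i) : ℝ) ≤ Real.log (q i * M : ℕ) ^ B ∨ ∀ d ∈ D (q i * M), ¬ d ∣ q i)) →
        ({b : Fin k → ℤ | (∀ i j, i ≠ j → (q i : ℤ) * b j ≠ q j * b i) ∧ (∀ i, 1 ≤ b i ∧ b i ≤ q i * M) ∧
          (primeValues (Set.Icc 1 M) q b : ℝ) <
            (1 / 8) ^ k * singular q b * (M / ∏ i, Real.log ((q i : ℝ) * M))}.ncard : ℝ) ≤
              (∏ i, ((q i : ℝ) * M)) / Real.log M ^ A ∧
        ∀ S : Set ℕ, S ⊆ Set.Icc 1 M →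
          ({b : Fin k → ℤ | (∀ i, 1 ≤ b i ∧ b i ≤ q i * M) ∧ (primeValues S q b : ℝ) <
            (1 / 8) ^ k * (roughValues ⌈Real.log M ^ E⌉₊ S q b /
              ∏ i, (mertens ⌈Real.log M ^ E⌉₊ * Real.log ((q i : ℝ) * M))) - M / Real.log M ^ A}.ncard : ℝ) ≤
                (∏ i, ((q i : ℝ) * M)) / Real.log M ^ A := by
  classical
  obtain ⟨c, h1⟩ := Pool.Agent.H579.R.tupGR k hk (ρ := min ρ (1 / 10)) (lt_min hρ (by norm_num)) (min_le_right _ _) A
  refine ⟨c, fun B => ?_⟩
  obtain ⟨E₀, h2⟩ := h1 B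
  refine ⟨E₀, fun E hE => ?_⟩
  obtain ⟨x₀, D, hD, h3⟩ := h2 E hE
  refine ⟨x₀, D, hD, fun M hM q hq => ?_⟩
  obtain ⟨h5, h6⟩ := h3 M hM q (fun i => ⟨(hq i).1, by
    refine le_trans ?_ (hq i).2.1
    have hq1 : (1 : ℝ) ≤ q i := by exact_mod_cast (hq i).1
    exact Real.rpow_le_rpow_of_exponent_le hq1 (by linarith [min_le_left ρ (1 / 10)]),
    Pool.Agent.H579.R.reg_of_rad (hq i).1 (hD (q i * M) (hM.trans (Nat.le_mul_of_pos_left M (hq i).1))).2 (hq i).2.2⟩)
  have hfinall : ∀ T : Set (Fin k → ℤ), (∀ b ∈ T, ∀ i, 1 ≤ b i ∧ b i ≤ q i * M) → T.Finite := by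
    intro T hT
    refine Set.Finite.subset (Fintype.piFinset (fun i : Fin k => Finset.Icc 1 ((q i : ℤ) * M))).finite_toSet ?_
    intro b hb
    rw [Finset.mem_coe, Fintype.mem_piFinset]
    intro i
    exact Finset.mem_Icc.2 (hT b hb i)
  refine ⟨?_, fun S hS => ?_⟩
  · obtain ⟨T, hT⟩ : ∃ T : Set (Fin k → ℤ), T = {b : Fin k → ℤ | (∀ i j, i ≠ j → (q i : ℤ) * b j ≠ q j * b i) ∧
      (∀ i, 1 ≤ b i ∧ b i ≤ q i * M) ∧ (primeValues (Set.Icc 1 M) q b : ℝ) <
        (1 / 8) ^ k * singular q b * (M / ∏ i, Real.log ((q i : ℝ) * M))} := ⟨_, rfl⟩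
    rw [← hT]
    have hfin : T.Finite := by
      refine hfinall T fun b hb i => ?_
      rw [hT] at hb
      exact hb.2.1 i
    rw [Set.ncard_eq_toFinset_card T hfin]
    refine h5 hfin.toFinset (fun b hb => ?_) (fun b hb => ?_)
    · have e1 := hfin.mem_toFinset.1 hb
      rw [hT] at e1
      exact ⟨e1.1, e1.2.1⟩
    · have e1 := hfin.mem_toFinset.1 hb
      rw [hT] at e1
      rw [singular_eq]
      refine lt_of_eq_of_lt ?_ e1.2.2
      rw [Nat.cast_inj]
      unfold primeValues
      congr 1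
      ext m
      rw [Set.mem_inter_iff, Finset.mem_coe, Finset.mem_Icc, Set.mem_ofPred_eq, Set.mem_ofPred_eq, Set.mem_Icc]
      rfl
  · have hSfin : S.Finite := (Set.finite_Icc 1 M).subset hS
    have hSf : ((hSfin.toFinset : Finset ℕ) : Set ℕ) = S := hSfin.coe_toFinset
    have hSs : hSfin.toFinset ⊆ Finset.Icc 1 M := by
      intro s hs
      exact Finset.mem_Icc.2 (hS (hSfin.mem_toFinset.1 hs))
    obtain ⟨T, hT⟩ : ∃ T : Set (Fin k → ℤ), T = {b : Fin k → ℤ | (∀ i, 1 ≤ b i ∧ b i ≤ q i * M) ∧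
      (primeValues S q b : ℝ) <
            (1 / 8) ^ k * (roughValues ⌈Real.log M ^ E⌉₊ S q b /
              ∏ i, (mertens ⌈Real.log M ^ E⌉₊ * Real.log ((q i : ℝ) * M))) - M / Real.log M ^ A} := ⟨_, rfl⟩
    rw [← hT]
    have hfin : T.Finite := by
      refine hfinall T fun b hb i => ?_
      rw [hT] at hb
      exact hb.1 i
    rw [Set.ncard_eq_toFinset_card T hfin]
    refine h6 hSfin.toFinset hSs hfin.toFinset (fun b hb => ?_) (fun b hb => ?_)
    · have e1 := hfin.mem_toFinset.1 hb
      rw [hT] at e1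
      exact e1.1
    · have e1 := hfin.mem_toFinset.1 hb
      rw [hT] at e1
      rw [hSf]
      exact e1.2

end Pool.Agent.Results.MP_746f10_nt.SystemsWithLargeSlopes
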